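import Pool.Agent.N162.CV.Pl

/-!
CV/A1: points with a relation of high degree are not on an intersection of two curves of small
degrees.
-/

set_option autoImplicit false

open MvPolynomial

namespace Pool.Agent.N31.CV

open Pool.Agent.N162.CV

variable {Ω : Type} [Field Ω]

/-! ### finitely many common zeros -/

theorem dvd_mem {A : MvPolynomial (Fin 2) Ω} (hA : A ≠ 0)
    {q : Ideal (MvPolynomial (Fin 2) Ω)} (hq : q.IsPrime) (h : A ∈ q) :
    ∃ x, Prime x ∧ x ∣ A ∧ x ∈ q := by
  obtain ⟨f, hf, hfA⟩ := UniqueFactorizationMonoid.exists_prime_factors A hA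
  have h1 : f.prod ∈ q := by
    obtain ⟨u, hu⟩ := hfA.symm
    rw [← hu]
    exact q.mul_mem_right _ h
  obtain ⟨x, hx, hxq⟩ := (hq.multiset_prod_mem_iff_exists_mem f).1 h1
  exact ⟨x, hf x hx, (Multiset.dvd_prod hx).trans hfA.dvd, hxq⟩

theorem min_prime {A B : MvPolynomial (Fin 2) Ω} (hA : A ≠ 0) (hAB : IsRelPrime A B)
    {q p : Ideal (MvPolynomial (Fin 2) Ω)} (hq : q.IsPrime) (hp : p.IsPrime) (hqp : q ≤ p)
    (h1 : A ∈ q) (h2 : B ∈ q) : p ≤ q := by
  by_contra hcon
  have hlt : q < p := lt_of_le_not_ge hqp hcon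
  obtain ⟨x, hx, hxA, hxq⟩ := dvd_mem hA hq h1
  have hP1 : (Ideal.span {x}).IsPrime := (Ideal.span_singleton_prime hx.ne_zero).2 hx
  have hlt1 : Ideal.span {x} < q := by
    refine lt_of_le_of_ne ((Ideal.span_singleton_le_iff_mem q).2 hxq) ?_
    intro h
    have h3 : x ∣ B := by
      rw [← Ideal.mem_span_singleton, h]
      exact h2
    exact hx.not_isUnit (hAB hxA h3)
  have hlt0 : (⊥ : Ideal (MvPolynomial (Fin 2) Ω)) < Ideal.span {x} := by
    rw [bot_lt_iff_ne_bot, Ne, Ideal.span_singleton_eq_bot]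
    exact hx.ne_zero
  let P0 : PrimeSpectrum (MvPolynomial (Fin 2) Ω) := ⟨⊥, Ideal.isPrime_bot⟩
  let P1 : PrimeSpectrum (MvPolynomial (Fin 2) Ω) := ⟨_, hP1⟩
  let P2 : PrimeSpectrum (MvPolynomial (Fin 2) Ω) := ⟨_, hq⟩
  let P3 : PrimeSpectrum (MvPolynomial (Fin 2) Ω) := ⟨_, hp⟩
  have l0 : P0 < P1 := hlt0
  have l1 : P1 < P2 := hlt1
  have l2 : P2 < P3 := hlt
  let s : LTSeries (PrimeSpectrum (MvPolynomial (Fin 2) Ω)) :=
    ⟨3, ![P0, P1, P2, P3], by
      intro i
      fin_cases i
      · exact l0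
      · exact l1
      · exact l2⟩
  have h3 := Order.LTSeries.length_le_krullDim s
  have h4 : Order.krullDim (PrimeSpectrum (MvPolynomial (Fin 2) Ω)) = 2 := by
    have h5 := MvPolynomial.ringKrullDim_of_isNoetherianRing (R := Ω) (ι := Fin 2)
    rw [ringKrullDim_eq_zero_of_field, zero_add, Nat.card_fin] at h5
    exact h5
  rw [h4] at h3
  have h6 : ((3 : ℕ) : WithBot ℕ∞) ≤ ((2 : ℕ) : WithBot ℕ∞) := h3
  have h7 : (3 : ℕ) ≤ 2 := by exact_mod_cast h6
  omega

theorem finite_zeros {A B : MvPolynomial (Fin 2) Ω} (hA : A ≠ 0) (hAB : IsRelPrime A B) :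
    {z : Fin 2 → Ω | eval z A = 0 ∧ eval z B = 0}.Finite := by
  set I : Ideal (MvPolynomial (Fin 2) Ω) := Ideal.span {A, B} with hI
  have hAI : A ∈ I := Ideal.subset_span (by simp)
  have hBI : B ∈ I := Ideal.subset_span (by simp)
  refine Set.Finite.of_finite_image (f := fun z => RingHom.ker (eval z))
    ((Ideal.finite_minimalPrimes_of_isNoetherianRing _ I).subset ?_) ?_
  · rintro _ ⟨z, ⟨hz1, hz2⟩, rfl⟩
    refine ⟨⟨RingHom.ker_isPrime _, ?_⟩, ?_⟩
    · rw [hI, Ideal.span_le]
      intro x hx
      rcases hx with rfl | hx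
      · exact hz1
      · rw [Set.mem_singleton_iff] at hx
        rw [hx]
        exact hz2
    · rintro q ⟨hq, hIq⟩ hle
      exact min_prime hA hAB hq (RingHom.ker_isPrime _) hle (hIq hAI) (hIq hBI)
  · intro z _ z' _ h
    funext i
    have h1 : (X i - C (z i) : MvPolynomial (Fin 2) Ω) ∈ RingHom.ker (eval z) := by
      rw [RingHom.mem_ker]; simp
    have h2 : (X i - C (z i) : MvPolynomial (Fin 2) Ω) ∈ RingHom.ker (eval z') := by
      have h3 : RingHom.ker (eval z) = RingHom.ker (eval z') := h
      rw [← h3]; exact h1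
    rw [RingHom.mem_ker] at h2
    simp only [map_sub, eval_X, eval_C] at h2
    exact (sub_eq_zero.1 h2).symm

/-! ### a good direction -/

/-- restriction to the line `Y = s X + c` -/
noncomputable def rho (s c : Ω) : MvPolynomial (Fin 2) Ω →ₐ[Ω] Polynomial Ω :=
  aeval ![Polynomial.X, Polynomial.C s * Polynomial.X + Polynomial.C c]

theorem deg_lin (s c : Ω) :
    (Polynomial.C s * Polynomial.X + Polynomial.C c : Polynomial Ω).natDegree ≤ 1 :=
  Polynomial.natDegree_linear_le

theorem rho_natDegree_le (s c : Ω) {P : MvPolynomial (Fin 2) Ω} {k : ℕ}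
    (h : P.totalDegree ≤ k) : (rho s c P).natDegree ≤ k := by
  have h1 := MvPolynomial.aeval_natDegree_le (n := 1) P h
    ![Polynomial.X, Polynomial.C s * Polynomial.X + Polynomial.C c] (by
      intro i
      fin_cases i
      · exact Polynomial.natDegree_X_le
      · exact deg_lin s c)
  rwa [mul_one] at h1

theorem sum_fin2 (m : Fin 2 →₀ ℕ) : (m.sum fun _ e => e) = m 0 + m 1 := by
  rw [Finsupp.sum_fintype _ _ (fun _ => rfl), Fin.sum_univ_two]

theorem exists_dir [Infinite Ω] {A : MvPolynomial (Fin 2) Ω} (hA : A ≠ 0) :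
    ∃ s : Ω, ∀ c : Ω, (rho s c A).natDegree = A.totalDegree := by
  classical
  set a := A.totalDegree with ha
  have hle : ∀ m ∈ A.support, m 0 + m 1 ≤ a := by
    intro m hm
    rw [← sum_fin2]
    exact le_totalDegree hm
  let h : Polynomial Ω := ∑ m ∈ A.support.filter (fun m => m 0 + m 1 = a),
    Polynomial.monomial (m 1) (coeff m A)
  have hh : h ≠ 0 := by
    obtain ⟨m, hm, hma⟩ := Finset.exists_mem_eq_sup A.support (support_nonempty.2 hA)
      (fun s => s.sum fun _ e => e)
    have hma' : m 0 + m 1 = a := by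
      rw [ha, totalDegree, hma]
      exact (sum_fin2 m).symm
    intro h0
    have h1 : h.coeff (m 1) = coeff m A := by
      show (∑ m ∈ A.support.filter (fun m => m 0 + m 1 = a),
        Polynomial.monomial (m 1) (coeff m A)).coeff (m 1) = coeff m A
      rw [Polynomial.finsetSum_coeff, Finset.sum_eq_single m]
      · rw [Polynomial.coeff_monomial, if_pos rfl]
      · intro m' hm' hne
        rw [Finset.mem_filter] at hm'
        rw [Polynomial.coeff_monomial, if_neg]
        intro h2
        apply hne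
        ext i
        fin_cases i
        · have := hm'.2
          show m' 0 = m 0
          omega
        · exact h2
      · intro h2
        exact absurd (Finset.mem_filter.2 ⟨hm, hma'⟩) h2
    rw [h0, Polynomial.coeff_zero] at h1
    exact (mem_support_iff.1 hm) h1.symm
  obtain ⟨s, hs⟩ : ∃ s, h.eval s ≠ 0 := by
    by_contra hc
    push Not at hc
    exact hh (Polynomial.funext (fun r => by rw [hc r, Polynomial.eval_zero]))
  refine ⟨s, fun c => ?_⟩
  refine Polynomial.natDegree_eq_of_le_of_coeff_ne_zero (rho_natDegree_le s c le_rfl) ?_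
  have e : (rho s c A).coeff a = h.eval s := by
    show _ = (∑ m ∈ A.support.filter (fun m => m 0 + m 1 = a),
        Polynomial.monomial (m 1) (coeff m A)).eval s
    rw [Polynomial.eval_finsetSum, Finset.sum_filter]
    unfold rho
    rw [aeval_def, eval₂_eq', Polynomial.finsetSum_coeff]
    refine Finset.sum_congr rfl fun m hm => ?_
    rw [Fin.prod_univ_two]
    simp only [Matrix.cons_val_zero, Matrix.cons_val_one]
    rw [Polynomial.algebraMap_apply, Algebra.algebraMap_self, RingHom.id_apply,
      Polynomial.coeff_C_mul]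
    split_ifs with h1
    · rw [Polynomial.eval_monomial]
      congr 1
      rw [← h1, add_comm (m 0) (m 1), Polynomial.coeff_X_pow_mul]
      have h2 := Polynomial.coeff_pow_of_natDegree_le (m := m 1) (deg_lin s c)
      rw [mul_one] at h2
      rw [h2]
      congr 1
      simp
    · rw [Polynomial.coeff_eq_zero_of_natDegree_lt, mul_zero]
      have h2 := hle m hm
      calc (Polynomial.X ^ m 0 * (Polynomial.C s * Polynomial.X + Polynomial.C c) ^ m 1
            : Polynomial Ω).natDegree
          ≤ m 0 + m 1 * 1 := by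
            refine Polynomial.natDegree_mul_le.trans ?_
            refine add_le_add (by simp) ?_
            exact Polynomial.natDegree_pow_le.trans (Nat.mul_le_mul_left _ (deg_lin s c))
        _ < a := by omega
  rw [e]
  exact hs

/-! ### division -/

theorem divide {a b k : ℕ} {α β γ : Polynomial Ω} (hαβ : IsCoprime α β) (ha : α.natDegree = a)
    (ha1 : 1 ≤ a) (hb : β.natDegree ≤ b) (hb1 : 1 ≤ b) (hk : a + b ≤ k + 1)
    (hγ : γ.natDegree ≤ k) :
    ∃ u v : Polynomial Ω, γ = u * α + v * β ∧ u.natDegree + a ≤ k ∧ v.natDegree + b ≤ k := by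
  obtain ⟨u0, v0, h0⟩ := hαβ
  have hα0 : α ≠ 0 := by
    rintro rfl
    rw [Polynomial.natDegree_zero] at ha
    omega
  set v := (γ * v0) % α with hv
  set w := (γ * v0) / α with hw
  have e1 : α * w + v = γ * v0 := EuclideanDomain.div_add_mod _ _
  have hv1 : v.natDegree < a := by
    rw [← ha]
    exact Polynomial.natDegree_mod_lt _ (by omega)
  refine ⟨γ * u0 + w * β, v, ?_, ?_, by omega⟩
  · have : (γ * u0 + w * β) * α + v * β = γ * (u0 * α) + (α * w + v) * β := by ring
    rw [this, e1]
    have : γ * (u0 * α) + γ * v0 * β = γ * (u0 * α + v0 * β) := by ring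
    rw [this, h0, mul_one]
  · set u := γ * u0 + w * β with hu
    by_cases hu0 : u = 0
    · rw [hu0, Polynomial.natDegree_zero]; omega
    · have e2 : u * α = γ - v * β := by
        have : u * α = γ * (u0 * α + v0 * β) - (γ * v0 - α * w) * β := by
          rw [hu]; ring
        rw [this, h0, ← e1]
        ring
      have h1 : (u * α).natDegree = u.natDegree + a := by
        rw [Polynomial.natDegree_mul hu0 hα0, ha]
      rw [← h1, e2]
      refine (Polynomial.natDegree_sub_le _ _).trans (max_le hγ ?_)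
      refine Polynomial.natDegree_mul_le.trans ?_
      omega

/-- the line -/
noncomputable def ell (s c : Ω) : MvPolynomial (Fin 2) Ω := X 1 - (C s * X 0 + C c)

/-- extension of functions on the line -/
noncomputable def sig : Polynomial Ω →ₐ[Ω] MvPolynomial (Fin 2) Ω := Polynomial.aeval (X 0)

theorem rho_sig (s c : Ω) (u : Polynomial Ω) : rho s c (sig u) = u := by
  have h : (rho s c).comp sig = AlgHom.id Ω (Polynomial Ω) := by
    apply Polynomial.algHom_ext
    simp [rho, sig]
  exact DFunLike.congr_fun h u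

theorem ell_dvd (s c : Ω) (P : MvPolynomial (Fin 2) Ω) : ell s c ∣ P - sig (rho s c P) := by
  rw [← Ideal.mem_span_singleton, ← Ideal.Quotient.eq]
  have h : Ideal.Quotient.mkₐ Ω (Ideal.span {ell s c}) =
      (Ideal.Quotient.mkₐ Ω (Ideal.span {ell s c})).comp (sig.comp (rho s c)) := by
    apply MvPolynomial.algHom_ext
    intro i
    fin_cases i
    · simp [rho, sig]
    · show Ideal.Quotient.mk (Ideal.span {ell s c}) (X 1) =
        Ideal.Quotient.mk (Ideal.span {ell s c}) (sig (rho s c (X 1)))
      rw [Ideal.Quotient.eq, Ideal.mem_span_singleton]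
      have : sig (rho s c (X 1)) = C s * X 0 + C c := by
        simp [rho, sig]
      rw [this]
      exact dvd_refl _
  exact DFunLike.congr_fun h P

theorem sig_deg (u : Polynomial Ω) : (sig u).totalDegree ≤ u.natDegree := by
  unfold sig
  rw [Polynomial.aeval_eq_sum_range]
  refine totalDegree_finsetSum_le fun i hi => ?_
  refine (totalDegree_smul_le _ _).trans ?_
  rw [totalDegree_X_pow]
  rw [Finset.mem_range] at hi
  omega

theorem ell_deg (s c : Ω) : 1 ≤ (ell s c).totalDegree := by
  have h1 : coeff (Finsupp.single 1 1) (X 1 : MvPolynomial (Fin 2) Ω) = 1 := by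
    simp [coeff_X]
  have h2 : coeff (Finsupp.single 1 1) (X 0 : MvPolynomial (Fin 2) Ω) = 0 := by
    rw [coeff_X, if_neg]
    intro h
    have := DFunLike.congr_fun h 1
    simp at this
  have h3 : coeff (Finsupp.single 1 1) (C c : MvPolynomial (Fin 2) Ω) = 0 := by
    rw [coeff_C, if_neg]
    intro h
    have := DFunLike.congr_fun h 1
    simp at this
  have h : Finsupp.single 1 1 ∈ (ell s c).support := by
    rw [mem_support_iff]
    unfold ell
    rw [coeff_sub, coeff_add, coeff_C_mul, h1, h2, h3]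
    simp
  have := le_totalDegree h
  rw [sum_fin2] at this
  simpa using this

theorem step {A B : MvPolynomial (Fin 2) Ω} {s c : Ω} (hα : (rho s c A).natDegree = A.totalDegree)
    (hαβ : IsCoprime (rho s c A) (rho s c B)) (hA : 1 ≤ A.totalDegree) (hB : 1 ≤ B.totalDegree)
    {k : ℕ} (hk : A.totalDegree + B.totalDegree ≤ k + 1) {P : MvPolynomial (Fin 2) Ω}
    (hP : P.totalDegree ≤ k) :
    ∃ U V Q : MvPolynomial (Fin 2) Ω, P = U * A + V * B + ell s c * Q ∧ Q.totalDegree ≤ k - 1 := by
  obtain ⟨u, v, h1, h2, h3⟩ := divide hαβ hα hA (rho_natDegree_le s c le_rfl) hB hk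
    (rho_natDegree_le s c hP)
  set Wp := P - (sig u * A + sig v * B) with hW
  have h4 : rho s c Wp = 0 := by
    rw [hW, map_sub, map_add, map_mul, map_mul, rho_sig, rho_sig, h1, sub_self]
  obtain ⟨Q, hQ⟩ := ell_dvd s c Wp
  rw [h4, map_zero, sub_zero] at hQ
  refine ⟨sig u, sig v, Q, ?_, ?_⟩
  · rw [← hQ, hW]; ring
  · by_cases hQ0 : Q = 0
    · rw [hQ0, totalDegree_zero]; omega
    · have h5 : ell s c ≠ 0 := by
        intro h
        have := ell_deg s c
        rw [h, totalDegree_zero] at this
        omega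
      have h6 := totalDegree_mul_of_isDomain h5 hQ0
      rw [← hQ] at h6
      have h7 : Wp.totalDegree ≤ k := by
        rw [hW]
        refine (totalDegree_sub _ _).trans (max_le hP ?_)
        refine (totalDegree_add _ _).trans (max_le ?_ ?_)
        · refine (totalDegree_mul _ _).trans ?_
          have := sig_deg u
          omega
        · refine (totalDegree_mul _ _).trans ?_
          have := sig_deg v
          omega
      have := ell_deg s c
      omega

/-! ### the end -/

theorem interp {ι : Type} [DecidableEq ι] (S : Finset ι) (p : ι → Fin 2 → Ω)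
    (hp : Set.InjOn p S) {i0 : ι} (hi0 : i0 ∈ S) :
    ∃ P : MvPolynomial (Fin 2) Ω, P.totalDegree ≤ S.card ∧ eval (p i0) P ≠ 0 ∧
      ∀ i ∈ S, i ≠ i0 → eval (p i) P = 0 := by
  have h : ∀ i, ∃ κ : Fin 2, i ∈ S.erase i0 → p i κ ≠ p i0 κ := by
    intro i
    by_cases hi : i ∈ S.erase i0
    · rw [Finset.mem_erase] at hi
      have h1 : p i ≠ p i0 := fun h => hi.1 (hp hi.2 hi0 h)
      obtain ⟨κ, hκ⟩ := Function.ne_iff.1 h1
      exact ⟨κ, fun _ => hκ⟩
    · exact ⟨0, fun h => absurd h hi⟩
  choose κ hκ using h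
  refine ⟨∏ i ∈ S.erase i0, (X (κ i) - C (p i (κ i))), ?_, ?_, ?_⟩
  · refine (totalDegree_finsetProd _ _).trans ?_
    calc ∑ i ∈ S.erase i0, (X (κ i) - C (p i (κ i)) : MvPolynomial (Fin 2) Ω).totalDegree
        ≤ ∑ i ∈ S.erase i0, 1 := by
          refine Finset.sum_le_sum fun i _ => ?_
          refine (totalDegree_sub _ _).trans (max_le ?_ ?_)
          · rw [totalDegree_X]
          · rw [totalDegree_C]; omega
      _ = (S.erase i0).card := by simp
      _ ≤ S.card := Finset.card_le_card (Finset.erase_subset _ _)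
  · rw [map_prod]
    refine Finset.prod_ne_zero_iff.2 fun i hi => ?_
    simp only [map_sub, eval_X, eval_C]
    exact sub_ne_zero.2 (hκ i hi).symm
  · intro i hi hne
    rw [map_prod]
    refine Finset.prod_eq_zero (Finset.mem_erase.2 ⟨hne, hi⟩) ?_
    simp

/-- **CV/A1** -/
theorem a1_ : StA1 := by
  classical
  intro Ω _ _ ι S p lam m A B hS hp hlam hrel hA hB hAB hz
  by_contra hcon
  have hcon' : A.totalDegree + B.totalDegree ≤ m + 2 := by omega
  obtain ⟨i0, hi0⟩ := hS
  have hpos : ∀ G : MvPolynomial (Fin 2) Ω, G ≠ 0 → eval (p i0) G = 0 → 1 ≤ G.totalDegree := by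
    intro G hG h0
    by_contra hc
    have h1 : G.totalDegree = 0 := by omega
    rw [totalDegree_eq_zero_iff_eq_C] at h1
    rw [h1, eval_C] at h0
    rw [h0, C_0] at h1
    exact hG h1
  have hA1 := hpos A hA (hz i0 hi0).1
  have hB1 := hpos B hB (hz i0 hi0).2
  have : Infinite Ω := IsAlgClosed.instInfinite
  obtain ⟨s, hs⟩ := exists_dir hA
  have hfin := (finite_zeros hA hAB).image (fun z => z 1 - s * z 0)
  obtain ⟨c, hc⟩ := hfin.infinite_compl.nonempty
  have hc' : ∀ z : Fin 2 → Ω, eval z A = 0 → eval z B = 0 → eval z (ell s c) ≠ 0 := by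
    intro z h1 h2 h3
    apply hc
    refine ⟨z, ⟨h1, h2⟩, ?_⟩
    unfold ell at h3
    simp only [map_sub, map_add, map_mul, eval_X, eval_C] at h3
    show z 1 - s * z 0 = c
    linear_combination h3
  have hαβ : IsCoprime (rho s c A) (rho s c B) := by
    rw [Polynomial.isCoprime_iff_aeval_ne_zero_of_isAlgClosed Ω Ω]
    intro t
    by_contra hcc
    push Not at hcc
    have key : ∀ G : MvPolynomial (Fin 2) Ω, Polynomial.aeval t (rho s c G) =
        eval ![t, s * t + c] G := by
      intro G
      have h : ((Polynomial.aeval t).comp (rho s c) : MvPolynomial (Fin 2) Ω →ₐ[Ω] Ω) =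
          aeval ![t, s * t + c] := by
        apply MvPolynomial.algHom_ext
        intro i
        fin_cases i <;> simp [rho]
      have h1 := DFunLike.congr_fun h G
      rw [AlgHom.comp_apply] at h1
      rw [h1]
      rfl
    rw [key, key] at hcc
    apply hc' _ hcc.1 hcc.2
    unfold ell
    simp
  have hrelj : ∀ j, PRel (m + j) S p (fun i => lam i / (eval (p i) (ell s c)) ^ j) := by
    intro j
    induction j with
    | zero =>
      intro P hP
      simpa using hrel P hP
    | succ j ih =>
      intro P hP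
      obtain ⟨U, V, Q, h1, h2⟩ := step (hs c) hαβ hA1 hB1 (k := m + (j + 1)) (by omega) hP
      rw [← ih Q (by omega)]
      refine Finset.sum_congr rfl fun i hi => ?_
      rw [h1]
      simp only [map_add, map_mul, (hz i hi).1, (hz i hi).2, mul_zero, zero_add]
      have h3 := hc' (p i) (hz i hi).1 (hz i hi).2
      field_simp
      ring
  obtain ⟨P, hP1, hP2, hP3⟩ := interp S p hp hi0
  have h1 := hrelj S.card P (by omega)
  rw [Finset.sum_eq_single i0] at h1
  · have h3 := hc' (p i0) (hz i0 hi0).1 (hz i0 hi0).2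
    exact (mul_ne_zero (div_ne_zero (hlam i0 hi0) (pow_ne_zero _ h3)) hP2) h1
  · intro i hi hne
    rw [hP3 i hi hne, mul_zero]
  · intro h
    exact absurd hi0 h

end Pool.Agent.N31.CV
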